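import Pool.Agent.helper32.EX.SpecA

set_option autoImplicit false

namespace Pool.Agent.EX

theorem AUZ_cancel {n : ℕ} (C : Matrix (Fin n) (Fin n) ℤ) (k : ℤ) (hk : k ≠ 0) (a b : LV C ℤ) (h : k • a = k • b) : a = b := by
  refine Prod.ext (funext fun i => ?_) (funext fun i => ?_)
  · have := congrFun (congrArg Prod.fst h) i
    simpa [hk] using this
  · have := congrFun (congrArg Prod.snd h) i
    simpa [hk] using this

theorem AUZ (hJAC : JAC_stmt) (hANT : ANT_stmt) (hINV : INV_stmt) (hSQR : SQR_stmt) : AUZ_stmt := by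
  intro n C hC α u v
  have sq : ∀ x : LV C ℤ, br (ev C α 1) (br (ev C α 1) x) = (2 * fo (ev C α 1) x) • ev C α 1 := hSQR C ℤ α
  have he : br (ev C α (1 : ℤ)) (ev C α 1) = 0 := (hANT C ℤ (ev C α 1) (ev C α 1)).2
  generalize ev C α (1 : ℤ) = e at sq he ⊢
  have D : ∀ x y : LV C ℤ, br e (br x y) = br (br e x) y + br x (br e y) := by
    intro x y
    have h1 := hJAC C ℤ e x y
    rw [(hANT C ℤ y e).1, (hANT C ℤ y (br e x)).1, br_neg_right] at h1
    rw [add_assoc, add_eq_zero_iff_eq_neg] at h1
    rw [h1]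
    abel
  have cub : ∀ x : LV C ℤ, br e (br e (br e x)) = 0 := by
    intro x
    rw [sq x, br_smul_right, he, smul_zero]
  have D2 : br e (br e (br u v)) = br (br e (br e u)) v + (br (br e u) (br e v) + br (br e u) (br e v)) + br u (br e (br e v)) := by
    rw [D u v, br_add_right, D (br e u) v, D u (br e v)]
    abel
  constructor
  · apply AUZ_cancel C 2 (by norm_num)
    have h := D2
    rw [sq, sq u, sq v, mul_smul, mul_smul, mul_smul, br_smul_left, br_smul_right] at h
    rw [h, smul_add, smul_add, two_smul ℤ (br (br e u) (br e v))]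
  · apply AUZ_cancel C 6 (by norm_num)
    have h := congrArg (fun x => br e x) D2
    simp only [br_add_right] at h
    rw [cub, D (br e (br e u)) v, D (br e u) (br e v), D u (br e (br e v)), cub u, cub v, br_zero_left, br_zero_right,
      sq u, sq v, mul_smul, mul_smul, br_smul_left, br_smul_right] at h
    rw [smul_zero, h, smul_add, show (6 : ℤ) = 3 * 2 from rfl, mul_smul, mul_smul]
    generalize (2 : ℤ) • br (fo e u • e) (br e v) = P
    generalize (2 : ℤ) • br (br e u) (fo e v • e) = R
    have h3 : ∀ x : LV C ℤ, (3 : ℤ) • x = x + x + x := by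
      intro x
      rw [show (3 : ℤ) = 1 + 1 + 1 from rfl, add_smul, add_smul, one_smul]
    rw [h3, h3]
    abel

end Pool.Agent.EX
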